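import Pool.Agent.H839R2.HO.S2Emb

/-!
The projection `S² × S³ → S²` from a positively curved metric: conclusion.
-/

open Bundle Manifold ContDiff Metric Module

set_option autoImplicit false

noncomputable section

namespace Pool.Agent.H839R2.FD

open Pool.Agent.H821R2 Pool.Agent.H878R5 Pool.Agent.H839R2.RS

/-- the unit sphere of `ℝ³` -/
abbrev Sphere2 : Type := sphere (0 : EuclideanSpace ℝ (Fin 3)) 1

/-- the unit sphere of `ℝ⁴` -/
abbrev Sphere3 : Type := sphere (0 : EuclideanSpace ℝ (Fin 4)) 1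

instance fact3 : Fact (finrank ℝ (EuclideanSpace ℝ (Fin 3)) = 2 + 1) := ⟨by simp⟩

instance fact4 : Fact (finrank ℝ (EuclideanSpace ℝ (Fin 4)) = 3 + 1) := ⟨by simp⟩

theorem closed2 : IsClosedMfd (𝓡 2) 2 Sphere2 := by
  have h : ConnectedSpace Sphere2 := S23.connected_sphere 2 (by norm_num)
  exact ⟨inferInstance, by simp, inferInstance, inferInstance, inferInstance, inferInstance,
    inferInstance, h⟩

theorem closed23 : IsClosedMfd ((𝓡 2).prod (𝓡 3)) (3 + 2) (Sphere2 × Sphere3) := by
  have h : ConnectedSpace Sphere2 := S23.connected_sphere 2 (by norm_num)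
  have h3 : ConnectedSpace Sphere3 := S23.connected_sphere 3 (by norm_num)
  exact ⟨inferInstance, by simp, inferInstance, inferInstance, inferInstance, inferInstance,
    inferInstance, inferInstance⟩

theorem positive : PositiveSubmersion 3 2 ((𝓡 2).prod (𝓡 3)) (𝓡 2)
    (Prod.fst : Sphere2 × Sphere3 → Sphere2) := by
  obtain ⟨D, hD⟩ := exists_good
  obtain ⟨g, hg, h1⟩ := S24.main hD
  obtain ⟨h, hh⟩ := submersion (S24.com hD.symW hD.symQ hD.pos) hg
  exact ⟨closed23, closed2, g, h, h1, hh⟩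

theorem main : PositiveProjection 3 2 (𝓡 2) Sphere2 (𝓡 3) Sphere3 ∧ ¬ FiberDimensionBound := by
  refine ⟨positive, fun h => ?_⟩
  have := h 3 2 _ _ _ _ _ _ _ _ _ (by norm_num) positive
  omega

end Pool.Agent.H839R2.FD
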