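import Pool.Agent.H878R5.S23.Stmt

/-!
Riemannian submersions, and the fibre dimension bound for Riemannian submersions from positively
curved manifolds: statements.
-/

open Bundle Manifold ContDiff Module

set_option autoImplicit false

noncomputable section

namespace Pool.Agent.H839R2.RS

open Pool.Agent.H821R2 Pool.Agent.H878R5

section defs

variable {E : Type*} [NormedAddCommGroup E] [NormedSpace ℝ E]
  {H : Type*} [TopologicalSpace H] {I : ModelWithCorners ℝ E H}
  {M : Type*} [TopologicalSpace M] [ChartedSpace H M] [IsManifold I ∞ M]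
  {E' : Type*} [NormedAddCommGroup E'] [NormedSpace ℝ E']
  {H' : Type*} [TopologicalSpace H'] {I' : ModelWithCorners ℝ E' H'}
  {B : Type*} [TopologicalSpace B] [ChartedSpace H' B] [IsManifold I' ∞ B]

/-- `v` is horizontal at `p`: `v` is `g`-orthogonal to the kernel of the differential `df_p`. -/
def IsHorizontal (g : ContMDiffRiemannianMetric I ∞ E (fun x : M => TangentSpace I x))
    (I' : ModelWithCorners ℝ E' H') (f : M → B) (p : M) (v : TangentSpace I p) : Prop :=
  ∀ u : TangentSpace I p, mfderiv I I' f p u = 0 → g.inner p v u = 0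

/-- `f : (M, g) → (B, h)` is a Riemannian submersion: it is smooth and surjective and at every point
`p` its differential maps the horizontal space `(ker df_p)^⊥` isometrically onto `T_{f(p)} B`. -/
structure IsRiemannianSubmersion
    (g : ContMDiffRiemannianMetric I ∞ E (fun x : M => TangentSpace I x))
    (h : ContMDiffRiemannianMetric I' ∞ E' (fun x : B => TangentSpace I' x))
    (f : M → B) : Prop where
  smooth : ContMDiff I I' ∞ f
  surjective : Function.Surjective f
  isometry : ∀ (p : M) (v w : TangentSpace I p), IsHorizontal g I' f p v →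
    IsHorizontal g I' f p w →
    h.inner (f p) (mfderiv I I' f p v) (mfderiv I I' f p w) = g.inner p v w
  onto : ∀ (p : M) (w : TangentSpace I' (f p)), ∃ v : TangentSpace I p,
    IsHorizontal g I' f p v ∧ mfderiv I I' f p v = w

end defs

/-- `M` is a compact connected smooth manifold (Hausdorff, second countable, without boundary) of
dimension `n`, modelled on `I`. -/
def IsClosedMfd {E : Type*} [NormedAddCommGroup E] [NormedSpace ℝ E] {H : Type*}
    [TopologicalSpace H] (I : ModelWithCorners ℝ E H) (n : ℕ) (M : Type*) [TopologicalSpace M]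
    [ChartedSpace H M] : Prop :=
  FiniteDimensional ℝ E ∧ finrank ℝ E = n ∧ IsManifold I ∞ M ∧ BoundarylessManifold I M ∧
    T2Space M ∧ SecondCountableTopology M ∧ CompactSpace M ∧ ConnectedSpace M

/-- There is a Riemannian submersion `f : (M, g) → (B, h)` of closed connected manifolds with
`dim M = k + b`, `dim B = b` and positively curved `(M, g)`; `k` is the fibre dimension. -/
def PositiveSubmersion (k b : ℕ)
    {E : Type*} [NormedAddCommGroup E] [NormedSpace ℝ E]
    {H : Type*} [TopologicalSpace H] (I : ModelWithCorners ℝ E H)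
    {M : Type*} [TopologicalSpace M] [ChartedSpace H M] [IsManifold I ∞ M]
    {E' : Type*} [NormedAddCommGroup E'] [NormedSpace ℝ E']
    {H' : Type*} [TopologicalSpace H'] (I' : ModelWithCorners ℝ E' H')
    {B : Type*} [TopologicalSpace B] [ChartedSpace H' B] [IsManifold I' ∞ B] (f : M → B) : Prop :=
  IsClosedMfd I (k + b) M ∧ IsClosedMfd I' b B ∧
  ∃ (g : ContMDiffRiemannianMetric I ∞ E (fun x : M => TangentSpace I x))
    (h : ContMDiffRiemannianMetric I' ∞ E' (fun x : B => TangentSpace I' x)),
    PositivelyCurved g ∧ IsRiemannianSubmersion g h f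

/-- The projection `M₁ × M₂ → M₁` is a Riemannian submersion as in `PositiveSubmersion`, for some
metrics on `M₁ × M₂` and `M₁`; the fibre is `M₂`. -/
def PositiveProjection (k b : ℕ)
    {E₁ : Type*} [NormedAddCommGroup E₁] [NormedSpace ℝ E₁]
    {H₁ : Type*} [TopologicalSpace H₁] (I₁ : ModelWithCorners ℝ E₁ H₁)
    (M₁ : Type*) [TopologicalSpace M₁] [ChartedSpace H₁ M₁] [IsManifold I₁ ∞ M₁]
    {E₂ : Type*} [NormedAddCommGroup E₂] [NormedSpace ℝ E₂]
    {H₂ : Type*} [TopologicalSpace H₂] (I₂ : ModelWithCorners ℝ E₂ H₂)
    (M₂ : Type*) [TopologicalSpace M₂] [ChartedSpace H₂ M₂] [IsManifold I₂ ∞ M₂] : Prop :=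
  PositiveSubmersion k b (I₁.prod I₂) I₁ (Prod.fst : M₁ × M₂ → M₁)

/-- The assertion asked for in Q1: every Riemannian submersion of a closed connected positively
curved manifold onto a connected manifold with fibre dimension `k ≥ 1` has `k < dim B`. -/
def FiberDimensionBound : Prop :=
  ∀ (k b : ℕ) (E : Type) [NormedAddCommGroup E] [NormedSpace ℝ E]
    (H : Type) [TopologicalSpace H] (I : ModelWithCorners ℝ E H)
    (M : Type) [TopologicalSpace M] [ChartedSpace H M] [IsManifold I ∞ M]
    (E' : Type) [NormedAddCommGroup E'] [NormedSpace ℝ E']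
    (H' : Type) [TopologicalSpace H'] (I' : ModelWithCorners ℝ E' H')
    (B : Type) [TopologicalSpace B] [ChartedSpace H' B] [IsManifold I' ∞ B] (f : M → B),
    1 ≤ k → PositiveSubmersion k b I I' f → k < b

end Pool.Agent.H839R2.RS
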