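import Pool.Agent.H878R5.S24.Pos
import Pool.Agent.H878R5.S23.Yes
import Pool.Agent.H839R2.HO.RSub

/-!
The projection `S² × S³ → S²` of the positively curved metric on `S² × S³` is a Riemannian
submersion for a suitable metric on `S²`.
-/

open Bundle Manifold ContDiff ContinuousLinearMap Filter VectorField Metric
open scoped Topology RealInnerProductSpace

set_option autoImplicit false
set_option synthInstance.maxHeartbeats 400000
set_option maxHeartbeats 4000000
set_option linter.unusedSectionVars false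

noncomputable section

namespace Pool.Agent.H839R2.FD

open Pool.Agent.H821R2 H907H Pool.Agent.H893R5.HO HopfPP
open Pool.Agent.H821R3 hiding S2
open Pool.Agent.H878R5 Pool.Agent.H878R5.S24

/-- the inclusion `S² → ℝ³` -/
def j2 (p : S2) : R3 := (p : R3)

theorem smooth_j2 : ContMDiff (𝓡 2) 𝓘(ℝ, R3) ∞ j2 :=
  contMDiff_coe_sphere (m := ∞) (E := R3) (n := 2)

/-- the projection `id - z ⊗ z` -/
def P2 (z : R3) : R3 →L[ℝ] R3 := ContinuousLinearMap.id ℝ R3 - (innerSL ℝ z).smulRight z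

theorem P2_apply (z a : R3) : P2 z a = a - ⟪z, a⟫ • z := by simp [P2]

theorem orth2 (p : S2) (v : TangentSpace (𝓡 2) p) : ⟪(p : R3), mvfderiv (𝓡 2) j2 p v⟫ = 0 := by
  have h : mvfderiv (𝓡 2) j2 p v ∈ (ℝ ∙ (p : R3))ᗮ := by
    rw [← range_mvfderiv_subtypeVal (E := R3) (n := 2) p]
    exact ⟨_, rfl⟩
  exact Submodule.mem_orthogonal_singleton_iff_inner_right.1 h

/-- `S²` as an immersed manifold -/
def X2 : Emb (𝓡 2) S2 R3 where
  B := innerSL ℝ
  Bsymm a b := by
    rw [innerSL_apply_apply, innerSL_apply_apply, real_inner_comm]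
  Bpos a ha := by
    rw [innerSL_apply_apply]
    exact real_inner_self_pos.2 ha
  j := j2
  hj := smooth_j2
  inj p v h := injective_mvfderiv_subtypeVal_sphere (E := R3) (n := 2) p (h.trans (map_zero _).symm)
  P := P2
  hP := contDiff_const.sub ((innerSL ℝ (E := R3)).contDiff.smulRight contDiff_id)
  Psymm p a b := by
    rw [innerSL_apply_apply, innerSL_apply_apply, P2_apply, P2_apply]
    simp only [inner_sub_left, inner_sub_right, real_inner_smul_left, real_inner_smul_right]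
    rw [real_inner_comm (j2 p) a]
    ring
  Pd p v := by
    rw [P2_apply]
    have h := orth2 p v
    change mvfderiv (𝓡 2) j2 p v - ⟪(p : R3), mvfderiv (𝓡 2) j2 p v⟫ • (p : R3) = _
    rw [h, zero_smul, sub_zero]
  rng p a := by
    have h1 : a - ⟪(p : R3), a⟫ • (p : R3) ∈ (ℝ ∙ (p : R3))ᗮ :=
      Submodule.mem_orthogonal_singleton_iff_inner_right.2 (by
        rw [inner_sub_right, real_inner_smul_right, inner_self_sph]
        ring)
    rw [← range_mvfderiv_subtypeVal (E := R3) (n := 2) p] at h1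
    obtain ⟨v, hv⟩ := h1
    refine ⟨v, ?_⟩
    rw [P2_apply]
    exact hv

theorem X2_B (a b : R3) : X2.B a b = ⟪a, b⟫ := rfl

theorem X2_j (p : S2) : X2.j p = (p : R3) := rfl

theorem X2_P (z a : R3) : X2.P z a = a - ⟪z, a⟫ • z := P2_apply z a

theorem X_d_fst (p : SS R3 Hq) (v : TangentSpace ((𝓡 2).prod (𝓡 3)) p) :
    (X.d p v).1 = X2.d p.1 (v.1 : EuclideanSpace ℝ (Fin 2)) :=
  congrArg Prod.fst (d_sj 2 3 p v)

variable {D : Dat ℝ}

/-- the first component of the momentum of `(p, 0)` does not depend on the second point -/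
theorem J_fst (x : R3) (y y' : Hq) (a : R3) : Y.J (x, y) (a, 0) = Y.J (x, y') (a, 0) := by
  apply dt6_ext
  intro w
  rw [Y.dt6_J, Y.dt6_J, Y_E, Y_E, X_B, X_B]
  simp

/-- **block independence** -/
theorem block1 (x : R3) (y y' : Hq) (a : R3) :
    (WD D (x, y) (a, 0)).1 = (WD D (x, y') (a, 0)).1 := by
  rw [WD_apply, WD_apply, Y_E, Y_E, J_fst x y y' a]
  rfl

/-- a point of `S³` -/
def y0 : S3 := ⟨EuclideanSpace.single 0 1, by simp⟩

/-- the cometric of the base -/
def W2 (D : Dat ℝ) (x : R3) : R3 →L[ℝ] R3 :=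
  (ContinuousLinearMap.fst ℝ R3 Hq).comp ((WD D (x, (y0 : Hq))).comp
    (ContinuousLinearMap.inl ℝ R3 Hq))

theorem W2_apply (x a : R3) : W2 D x a = (WD D (x, (y0 : Hq)) (a, 0)).1 := rfl

theorem W2_eq (x a : R3) (y : Hq) : (WD D (x, y) (a, 0)).1 = W2 D x a := block1 x y _ a

theorem com2 (hC : X.Com (WD D)) : X2.Com (W2 D) where
  smooth := contDiff_const.clm_comp
    ((hC.smooth.comp (contDiff_id.prodMk contDiff_const)).clm_comp contDiff_const)
  symm z a b := by
    have h := hC.symm (z, (y0 : Hq)) (a, 0) (b, 0)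
    rw [X_B, X_B] at h
    simp only [inner_zero_left, inner_zero_right, add_zero] at h
    rw [X2_B, X2_B, W2_apply, W2_apply]
    exact h
  tan p a := by
    have h := congrArg Prod.fst (hC.tan (p, y0) (a, 0))
    rw [X_P] at h
    rw [X2_P]
    exact h
  pos p a ha hne := by
    have h := hC.pos (p, y0) (a, 0) (by
      rw [X_P]
      rw [X2_P] at ha
      refine Prod.ext ha ?_
      simp) (fun h => hne (congrArg Prod.fst h))
    rw [X_B] at h
    simp only [inner_zero_left, add_zero] at h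
    exact h

open Pool.Agent.H839R2.RS

/-- **the projection `S² × S³ → S²` is a Riemannian submersion** -/
theorem submersion {g : ContMDiffRiemannianMetric ((𝓡 2).prod (𝓡 3)) ∞
      (EuclideanSpace ℝ (Fin 2) × EuclideanSpace ℝ (Fin 3))
      (fun x : S2 × S3 => TangentSpace ((𝓡 2).prod (𝓡 3)) x)}
    (hC : X.Com (WD D)) (hg : X.Dual g (WD D)) :
    ∃ h : ContMDiffRiemannianMetric (𝓡 2) ∞ (EuclideanSpace ℝ (Fin 2))
      (fun x : S2 => TangentSpace (𝓡 2) x),
      IsRiemannianSubmersion g h (Prod.fst : S2 × S3 → S2) := by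
  obtain ⟨h, hh⟩ := Emb.exists_metric (com2 hC)
  have hD : ∀ (p : S2 × S3) (v : TangentSpace ((𝓡 2).prod (𝓡 3)) p),
      mfderiv ((𝓡 2).prod (𝓡 3)) (𝓡 2) (Prod.fst : S2 × S3 → S2) p v = v.1 := by
    intro p v
    rw [mfderiv_fst]
    rfl
  -- horizontal vectors
  have hhor : ∀ (p : S2 × S3) (v : TangentSpace ((𝓡 2).prod (𝓡 3)) p),
      IsHorizontal g (𝓡 2) (Prod.fst : S2 × S3 → S2) p v →
      ∃ b : R3, X.d p v = WD D (X.j p) (b, 0) := by
    intro p v hv
    obtain ⟨a, ha1, ha⟩ := Emb.exists_covec hC hg p v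
    obtain ⟨u, hu⟩ := X.rng p (0, a.2)
    have hu' : X.d p u = (0, a.2) := by
      have h1 := congrArg Prod.snd ha1
      rw [X_P] at h1
      refine hu.trans ?_
      rw [X_P]
      refine Prod.ext ?_ h1
      simp
    have hu0 : mfderiv ((𝓡 2).prod (𝓡 3)) (𝓡 2) (Prod.fst : S2 × S3 → S2) p u = 0 := by
      rw [hD]
      apply X2.d_inj p.1
      refine (X_d_fst p u).symm.trans ?_
      rw [hu', map_zero]
    have h1 := hv u hu0
    rw [hg p a v ha.symm, hu', X_B] at h1
    simp only [inner_zero_right, zero_add] at h1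
    have h3 : a.2 = 0 := inner_self_eq_zero.1 h1
    refine ⟨a.1, ?_⟩
    rw [← ha]
    congr 1
    exact Prod.ext rfl h3
  have hX2 : ∀ (p : S2 × S3) (v : TangentSpace ((𝓡 2).prod (𝓡 3)) p) (b : R3),
      X.d p v = WD D (X.j p) (b, 0) → X2.d p.1 (v.1 : EuclideanSpace ℝ (Fin 2)) =
        W2 D (X2.j p.1) b := by
    intro p v b hb
    rw [← X_d_fst, hb]
    exact W2_eq _ _ _
  refine ⟨h, ⟨contMDiff_fst, fun y => ⟨(y, y0), rfl⟩, ?_, ?_⟩⟩
  · intro p v w hv _
    obtain ⟨b, hb1⟩ := hhor p v hv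
    rw [hD, hD, hg p _ v hb1, X_B]
    refine (hh p.1 b v.1 (hX2 p v b hb1) w.1).trans ?_
    rw [X2_B, ← X_d_fst]
    simp
  · intro p w
    obtain ⟨b, hb1, hb⟩ := Emb.exists_covec (com2 hC) hh p.1 w
    obtain ⟨v, hv⟩ := X.rng p (WD D (X.j p) (b, 0))
    have hv3 : X.d p v = WD D (X.j p) (b, 0) := hv.trans (hC.tan p _)
    refine ⟨v, ?_, ?_⟩
    · intro u hu
      rw [hD] at hu
      rw [hg p _ v hv3, X_B, X_d_fst, hu]
      simp
    · rw [hD]
      apply X2.d_inj p.1
      exact (hX2 p v b hv3).trans hb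

end Pool.Agent.H839R2.FD
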