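import Pool.Agent.H878R4.SP.All

/-!
Riemannian submersions, and the projection `S^m × S^n → S^n` for a metric given by a cometric whose
second diagonal block does not depend on the first factor (helper839, room HO).
-/

open Bundle Manifold ContDiff ContinuousLinearMap Filter VectorField Metric
open scoped Topology

set_option autoImplicit false
set_option linter.unusedSectionVars false

noncomputable section

namespace Pool.Agent.H839R2.Sub

open Pool.Agent.H821R2

section defs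

variable {E : Type*} [NormedAddCommGroup E] [NormedSpace ℝ E]
  {H : Type*} [TopologicalSpace H] {I : ModelWithCorners ℝ E H}
  {M : Type*} [TopologicalSpace M] [ChartedSpace H M] [IsManifold I ∞ M]
  {E' : Type*} [NormedAddCommGroup E'] [NormedSpace ℝ E']
  {H' : Type*} [TopologicalSpace H'] {I' : ModelWithCorners ℝ E' H'}
  {B : Type*} [TopologicalSpace B] [ChartedSpace H' B] [IsManifold I' ∞ B]

/-- `v` is horizontal at `p`: `v` is `g`-orthogonal to the kernel of the differential `df_p`. -/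
def IsHorizontal (g : ContMDiffRiemannianMetric I ∞ E (fun x : M => TangentSpace I x))
    (I' : ModelWithCorners ℝ E' H') (f : M → B) (p : M) (v : TangentSpace I p) : Prop :=
  ∀ u : TangentSpace I p, mfderiv I I' f p u = 0 → g.inner p v u = 0

/-- `f : (M, g) → (B, h)` is a Riemannian submersion: it is smooth and surjective and at every point
`p` its differential maps the horizontal space `(ker df_p)^⊥` isometrically onto `T_{f(p)} B`. -/
structure IsRiemannianSubmersion
    (g : ContMDiffRiemannianMetric I ∞ E (fun x : M => TangentSpace I x))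
    (h : ContMDiffRiemannianMetric I' ∞ E' (fun x : B => TangentSpace I' x))
    (f : M → B) : Prop where
  smooth : ContMDiff I I' ∞ f
  surjective : Function.Surjective f
  isometry : ∀ (p : M) (v w : TangentSpace I p), IsHorizontal g I' f p v →
    IsHorizontal g I' f p w →
    h.inner (f p) (mfderiv I I' f p v) (mfderiv I I' f p w) = g.inner p v w
  onto : ∀ (p : M) (w : TangentSpace I' (f p)), ∃ v : TangentSpace I p,
    IsHorizontal g I' f p v ∧ mfderiv I I' f p v = w

end defs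

open Pool.Agent.H821R5 Pool.Agent.H821R5.SP

local notation "⟪" x ", " y "⟫" => inner ℝ x y

variable {m n : ℕ}

/-- the differential of the inclusion `S^n → ℝ^(n+1)` -/
def dS (y : Sp n) : TangentSpace (𝓡 n) y →L[ℝ] EV (n + 1) :=
  mvfderiv (𝓡 n) (fun x : Sp n => (x : EV (n + 1))) y

theorem dS_inj (y : Sp n) {v w : TangentSpace (𝓡 n) y} (h : dS y v = dS y w) : v = w :=
  injective_mvfderiv_subtypeVal_sphere (E := EV (n + 1)) (n := n) y h

theorem dS_orth (y : Sp n) (v : TangentSpace (𝓡 n) y) : ⟪(y : EV (n + 1)), dS y v⟫ = (0 : ℝ) := by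
  have h : dS y v ∈ (ℝ ∙ (y : EV (n + 1)))ᗮ := by
    rw [← range_mvfderiv_subtypeVal (E := EV (n + 1)) (n := n) y]
    exact ⟨_, rfl⟩
  exact Submodule.mem_orthogonal_singleton_iff_inner_right.1 h

theorem d2_dS (p : MM m n) (v : TangentSpace (IM m n) p) : d2 p v = dS p.2 v.2 :=
  d2_eq p v

theorem smooth_section (x0 : Sp m) :
    ContMDiff (𝓡 n) (IM m n) ∞ (fun y : Sp n => ((x0, y) : MM m n)) :=
  contMDiff_const.prodMk contMDiff_id

/-- the second component of a vector at `(x0, y)` -/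
def sc (x0 : Sp m) (Z : Π p : MM m n, TangentSpace (IM m n) p) (y : Sp n) : TangentSpace (𝓡 n) y :=
  (Z (x0, y)).2

/-- fields on the sphere -/
theorem smooth_sc (x0 : Sp m) {Z : Π p : MM m n, TangentSpace (IM m n) p}
    (hZ : Pool.Agent.H821R3.SmV Z) : Pool.Agent.H821R3.SmV (I := 𝓡 n) (M := Sp n) (sc x0 Z) := by
  have h1 : ContMDiff (IM m n).tangent (𝓡 n).tangent ∞
      (tangentMap (IM m n) (𝓡 n) (Prod.snd : MM m n → Sp n)) :=
    ContMDiff.contMDiff_tangentMap (m := ∞) (n := ∞) contMDiff_snd (by simp)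
  have h2 := (h1.comp hZ).comp (smooth_section (n := n) x0)
  refine h2.congr fun y => ?_
  simp only [Function.comp, tangentMap]
  rw [mfderiv_snd]
  rfl

/-- coordinate functions on the sphere -/
def coS (i : Fin (n + 1)) (y : Sp n) : ℝ := ⟪bv i, (y : EV (n + 1))⟫

theorem smooth_coS (i : Fin (n + 1)) : Pool.Agent.H821R3.Sm (𝓡 n) (coS (n := n) i) :=
  (innerSL ℝ (bv i)).contMDiff.comp (contMDiff_coe_sphere (m := ∞) (E := EV (n + 1)) (n := n))

theorem d_coS (i : Fin (n + 1)) (y : Sp n) (v : TangentSpace (𝓡 n) y) :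
    mvfderiv (𝓡 n) (coS (n := n) i) y v = (dS y v) i := by
  rw [← inner_bv i (dS y v)]
  exact Pool.Agent.H821R5.d_clm (innerSL ℝ (bv i))
    ((contMDiff_coe_sphere (m := ∞) (E := EV (n + 1)) (n := n)).mdifferentiableAt (by simp)) v

/-- frame data on the sphere -/
def frS (x0 : Sp m) : Pool.Agent.H893R5.HO.FrameData (𝓡 n) (Sp n) (Fin (n + 1)) where
  f := coS
  e := fun i => sc x0 (fe (m := m) (.inr i))
  hf := smooth_coS
  he := fun i => smooth_sc x0 (smooth_fe (.inr i))
  repr := by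
    intro y v
    have f2 : ∀ i, dS y (sc x0 (fe (m := m) (.inr i)) y) = bv i - ⟪bv i, (y : EV (n + 1))⟫ • (y : EV (n + 1)) := by
      intro i
      have := ((exists_e2 (m := m) (n := n) i).choose_spec.2 (x0, y)).2
      rw [d2_dS] at this
      exact this
    have key : ∀ {k : ℕ} (a x : EV k), ⟪x, a⟫ = (0 : ℝ) → ∑ i, a i • (bv i - ⟪bv i, x⟫ • x) = a := by
      intro k a x hx
      have e : ∑ i, a i • (bv i - ⟪bv i, x⟫ • x) = ∑ i, a i • bv i -
          (∑ i, a i * ⟪bv i, x⟫) • x := by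
        rw [Finset.sum_smul, ← Finset.sum_sub_distrib]
        refine Finset.sum_congr rfl fun i _ => ?_
        module
      have e2 : ∑ i, a i * ⟪bv i, x⟫ = 0 := by
        have : ⟪x, a⟫ = ∑ i, a i * ⟪bv i, x⟫ := by
          conv_lhs => rw [← sum_bv a, inner_sum]
          refine Finset.sum_congr rfl fun i _ => ?_
          rw [inner_smul_right, real_inner_comm]
        rw [← this, hx]
      rw [e, e2, sum_bv]
      simp
    apply dS_inj y
    rw [map_sum]
    simp only [map_smul, d_coS, f2]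
    exact key _ _ (dS_orth y v)

/-- the second block of `W` does not depend on the first point -/
def Block2 (W : AA m n → AA m n →L[ℝ] AA m n) : Prop :=
  ∀ (x x' : EV (m + 1)) (y : EV (n + 1)) (b : EV (n + 1)), ‖x‖ = 1 → ‖x'‖ = 1 → ‖y‖ = 1 →
    (W (x, y) (0, b)).2 = (W (x', y) (0, b)).2

/-- block diagonal cometric -/
def Wd (W : AA m n → AA m n →L[ℝ] AA m n) (x0 : Sp m) (z : AA m n) : AA m n →L[ℝ] AA m n :=
  (ContinuousLinearMap.inl ℝ (EV (m + 1)) (EV (n + 1))).comp
    ((ContinuousLinearMap.id ℝ (EV (m + 1)) - (innerSL ℝ z.1).smulRight z.1).comp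
      (ContinuousLinearMap.fst ℝ (EV (m + 1)) (EV (n + 1)))) +
  (ContinuousLinearMap.inr ℝ (EV (m + 1)) (EV (n + 1))).comp
    ((ContinuousLinearMap.snd ℝ (EV (m + 1)) (EV (n + 1))).comp
      ((W ((x0 : EV (m + 1)), z.2)).comp
        ((ContinuousLinearMap.inr ℝ (EV (m + 1)) (EV (n + 1))).comp
          (ContinuousLinearMap.snd ℝ (EV (m + 1)) (EV (n + 1))))))

theorem Wd_apply (W : AA m n → AA m n →L[ℝ] AA m n) (x0 : Sp m) (z a : AA m n) :
    Wd W x0 z a = (a.1 - ⟪z.1, a.1⟫ • z.1, (W ((x0 : EV (m + 1)), z.2) (0, a.2)).2) := by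
  simp [Wd]

theorem pr_zero_left (b : EV (n + 1)) (c : AA m n) : pr ((0, b) : AA m n) c = ⟪b, c.2⟫ := by
  simp [pr]

theorem pr_zero_right (b : EV (n + 1)) (c : AA m n) : pr c ((0, b) : AA m n) = ⟪c.2, b⟫ := by
  simp [pr]

theorem cometric_Wd {W : AA m n → AA m n →L[ℝ] AA m n} (hW : Cometric W) (x0 : Sp m) :
    Cometric (Wd W x0) := by
  have hx0 : ‖(x0 : EV (m + 1))‖ = 1 := norm_eq_of_mem_sphere x0
  refine ⟨?_, ?_, ?_, ?_, ?_⟩
  · have h1 : ContDiff ℝ ∞ (fun z : AA m n => (innerSL ℝ z.1).smulRight z.1) :=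
      ((innerSL ℝ (E := EV (m + 1))).contDiff.comp contDiff_fst).smulRight contDiff_fst
    have h2 : ContDiff ℝ ∞ (fun z : AA m n => W ((x0 : EV (m + 1)), z.2)) :=
      hW.smooth.comp (contDiff_const.prodMk contDiff_snd)
    exact (contDiff_const.clm_comp ((contDiff_const.sub h1).clm_comp contDiff_const)).add
      (contDiff_const.clm_comp (contDiff_const.clm_comp (h2.clm_comp contDiff_const)))
  · intro z a b
    have e := hW.symm ((x0 : EV (m + 1)), z.2) (0, a.2) (0, b.2)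
    rw [pr_zero_right, pr_zero_left] at e
    rw [Wd_apply, Wd_apply]
    simp only [pr, e, inner_sub_left, inner_sub_right, inner_smul_left, inner_smul_right]
    simp only [conj_trivial]
    rw [real_inner_comm z.1 a.1]
    ring
  · intro z h1 h2 a
    rw [Wd_apply]
    simp only [inner_sub_right, inner_smul_right, real_inner_self_eq_norm_sq, h1]
    ring
  · intro z h1 h2 a
    rw [Wd_apply]
    exact hW.tan2 ((x0 : EV (m + 1)), z.2) hx0 h2 _
  · intro z h1 h2 a ha1 ha2 hne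
    rw [Wd_apply]
    have e1 : pr a (a.1 - ⟪z.1, a.1⟫ • z.1, (W ((x0 : EV (m + 1)), z.2) (0, a.2)).2) =
        ‖a.1‖ ^ 2 + pr ((0, a.2) : AA m n) (W ((x0 : EV (m + 1)), z.2) (0, a.2)) := by
      rw [pr_zero_left]
      simp only [pr, ha1, zero_smul, sub_zero, real_inner_self_eq_norm_sq]
    rw [e1]
    by_cases h : a.2 = 0
    · have h3 : a.1 ≠ 0 := fun h4 => hne (Prod.ext h4 h)
      have h5 : 0 < ‖a.1‖ := norm_pos_iff.2 h3
      have h6 : pr ((0, a.2) : AA m n) (W ((x0 : EV (m + 1)), z.2) (0, a.2)) = 0 := by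
        rw [pr_zero_left, h, inner_zero_left]
      rw [h6]
      positivity
    · have h6 := hW.pos ((x0 : EV (m + 1)), z.2) hx0 h2 (0, a.2) (by simp) ha2
        (fun h7 => h (congrArg Prod.snd h7))
      positivity

section

variable [Nontrivial (EM m n)] {W : AA m n → AA m n →L[ℝ] AA m n} (hW : Cometric W)

include hW

/-- lift of a tangent vector of the second factor -/
def lf (x0 : Sp m) (y : Sp n) (v : TangentSpace (𝓡 n) y) :
    TangentSpace (IM m n) ((x0, y) : MM m n) := ((0 : EuclideanSpace ℝ (Fin m)), v)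

theorem dd_lf (x0 : Sp m) (y : Sp n) (v : TangentSpace (𝓡 n) y) :
    dd ((x0, y) : MM m n) (lf x0 y v) = (0, dS y v) := by
  refine Prod.ext ?_ ?_
  · change d1 ((x0, y) : MM m n) (lf x0 y v) = 0
    rw [d1_eq]
    exact map_zero _
  · exact d2_dS _ _

theorem formS_eq (x0 : Sp m) (y : Sp n) (v w : TangentSpace (𝓡 n) y) :
    (frS x0).form (fun i j y => ac (Wd W x0) (.inr i) (.inr j) (x0, y)) y v w =
      fr.form (ac (Wd W x0)) ((x0, y) : MM m n) (lf x0 y v) (lf x0 y w) := by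
  have k1 : ∀ (i : Fin (m + 1)) (v : TangentSpace (𝓡 n) y),
      mvfderiv (IM m n) (co (.inl i)) ((x0, y) : MM m n) (lf x0 y v) = 0 := by
    intro i v
    rw [d_co, dd_lf hW]
    simp [pr, SP.eps]
  have k2 : ∀ (i : Fin (n + 1)) (v : TangentSpace (𝓡 n) y),
      mvfderiv (IM m n) (co (.inr i)) ((x0, y) : MM m n) (lf x0 y v) =
        mvfderiv (𝓡 n) (coS (n := n) i) y v := by
    intro i v
    rw [d_co, dd_lf hW, d_coS, ← inner_bv i (dS y v)]
    simp [pr, SP.eps]
  rw [Pool.Agent.H893R5.HO.FrameData.form_apply, Pool.Agent.H893R5.HO.FrameData.form_apply]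
  rw [Fintype.sum_sum_type]
  simp only [Fintype.sum_sum_type]
  change _ = ∑ i, (∑ j, ac (Wd W x0) (.inl i) (.inl j) (x0, y) *
      (mvfderiv (IM m n) (co (.inl i)) ((x0, y) : MM m n) (lf x0 y v) *
        mvfderiv (IM m n) (co (.inl j)) ((x0, y) : MM m n) (lf x0 y w)) +
      ∑ j, ac (Wd W x0) (.inl i) (.inr j) (x0, y) *
      (mvfderiv (IM m n) (co (.inl i)) ((x0, y) : MM m n) (lf x0 y v) *
        mvfderiv (IM m n) (co (.inr j)) ((x0, y) : MM m n) (lf x0 y w))) +
    ∑ i, (∑ j, ac (Wd W x0) (.inr i) (.inl j) (x0, y) *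
      (mvfderiv (IM m n) (co (.inr i)) ((x0, y) : MM m n) (lf x0 y v) *
        mvfderiv (IM m n) (co (.inl j)) ((x0, y) : MM m n) (lf x0 y w)) +
      ∑ j, ac (Wd W x0) (.inr i) (.inr j) (x0, y) *
      (mvfderiv (IM m n) (co (.inr i)) ((x0, y) : MM m n) (lf x0 y v) *
        mvfderiv (IM m n) (co (.inr j)) ((x0, y) : MM m n) (lf x0 y w)))
  simp only [k1, k2, zero_mul, mul_zero, Finset.sum_const_zero, zero_add, add_zero]
  rfl

theorem exists_metricS (x0 : Sp m) :
    ∃ h : ContMDiffRiemannianMetric (𝓡 n) ∞ (EuclideanSpace ℝ (Fin n))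
      (fun x : Sp n => TangentSpace (𝓡 n) x),
      ∀ (y : Sp n) (e : EV (n + 1)) (X : TangentSpace (𝓡 n) y),
        dS y X = (W ((x0 : EV (m + 1)), (y : EV (n + 1))) (0, e)).2 →
        ∀ v : TangentSpace (𝓡 n) y, h.inner y X v = ⟪e, dS y v⟫ := by
  have hWd := cometric_Wd hW x0
  have hx0 : ‖(x0 : EV (m + 1))‖ = 1 := norm_eq_of_mem_sphere x0
  refine ⟨(frS x0).metric (fun i j y => ac (Wd W x0) (.inr i) (.inr j) (x0, y))
    (fun i j => (smooth_ac hWd (.inr i) (.inr j)).comp (smooth_section x0))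
    (fun i j y => ac_symm hWd _ _ _) ?_, ?_⟩
  · intro y v hv
    rw [formS_eq hW]
    apply ac_pos hWd
    intro h
    exact hv (congrArg Prod.snd h)
  · intro y e X hX v
    change (frS x0).form _ y X v = _
    rw [formS_eq hW, form_eq hWd, dd_lf hW, dd_lf hW, hX]
    have e1 : ((0, (W ((x0 : EV (m + 1)), (y : EV (n + 1))) (0, e)).2) : AA m n) =
        Wd W x0 (zz (x0, y)) (0, e) := by
      rw [Wd_apply]
      simp [zz, P2]
    rw [e1, ← gi_symm hWd (norm_zz1 (x0, y)) (norm_zz2 (x0, y)),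
      gi_W hWd (norm_zz1 (x0, y)) (norm_zz2 (x0, y)), pr_sub_left, pr_nrm, pr_zero_left]
    have h2 : ⟪(zz ((x0, y) : MM m n)).2, dS y v⟫ = (0 : ℝ) := dS_orth y v
    rw [h2]
    simp

/-- **The projection `S^m × S^n → S^n` is a Riemannian submersion.** -/
theorem exists_submersion {g : ContMDiffRiemannianMetric (IM m n) ∞ (EM m n)
      (fun x : MM m n => TangentSpace (IM m n) x)} (hg : IsDual g W) (hb : Block2 W) (x0 : Sp m) :
    ∃ h : ContMDiffRiemannianMetric (𝓡 n) ∞ (EuclideanSpace ℝ (Fin n))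
      (fun x : Sp n => TangentSpace (𝓡 n) x),
      IsRiemannianSubmersion g h (Prod.snd : MM m n → Sp n) := by
  obtain ⟨h, hh⟩ := exists_metricS hW x0
  have hx0 : ‖(x0 : EV (m + 1))‖ = 1 := norm_eq_of_mem_sphere x0
  have hD : ∀ (p : MM m n) (v : TangentSpace (IM m n) p),
      mfderiv (IM m n) (𝓡 n) (Prod.snd : MM m n → Sp n) p v = v.2 := by
    intro p v
    rw [mfderiv_snd]
    rfl
  -- the second block
  have hblk : ∀ (p : MM m n) (b : EV (n + 1)), (W (zz p) (0, b)).2 =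
      (W ((x0 : EV (m + 1)), (p.2 : EV (n + 1))) (0, b)).2 := fun p b =>
    hb _ _ _ b (norm_zz1 p) hx0 (norm_zz2 p)
  -- horizontal vectors
  have hhor : ∀ (p : MM m n) (v : TangentSpace (IM m n) p),
      IsHorizontal g (𝓡 n) (Prod.snd : MM m n → Sp n) p v →
      ∃ b : EV (n + 1), dd p v = W (zz p) (0, b) := by
    intro p v hv
    obtain ⟨a, ha1, ha2, ha⟩ := exists_cov hW hg p v
    obtain ⟨u, hu1, hu2⟩ := exists_vec p (a := a.1) (b := 0) ha1 (by simp)
    have hu0 : mfderiv (IM m n) (𝓡 n) (Prod.snd : MM m n → Sp n) p u = 0 := by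
      rw [hD]
      apply dS_inj p.2
      rw [← d2_dS, hu2, map_zero]
    have h1 := hv u hu0
    rw [hg p a v ha.symm] at h1
    have h2 : pr a (dd p u) = ‖a.1‖ ^ 2 := by
      simp only [pr, dd, hu1, hu2, inner_zero_right, add_zero, real_inner_self_eq_norm_sq]
    rw [h2] at h1
    have h3 : a.1 = 0 := norm_eq_zero.1 (by simpa using h1)
    refine ⟨a.2, ?_⟩
    rw [← ha]
    congr 1
    exact Prod.ext h3 rfl
  refine ⟨h, ⟨contMDiff_snd, fun y => ⟨(x0, y), rfl⟩, ?_, ?_⟩⟩
  · intro p v w hv _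
    obtain ⟨b, hb1⟩ := hhor p v hv
    rw [hD, hD, hg p _ v hb1, pr_zero_left]
    have h1 : dS p.2 v.2 = (W ((x0 : EV (m + 1)), (p.2 : EV (n + 1))) (0, b)).2 := by
      rw [← d2_dS, ← hblk]
      exact congrArg Prod.snd hb1
    rw [hh p.2 b v.2 h1 w.2]
    change _ = ⟪b, d2 p w⟫
    rw [d2_dS]
  · intro p w
    obtain ⟨w', hw'⟩ : ∃ w' : TangentSpace (𝓡 n) p.2, w' = w := ⟨w, rfl⟩
    obtain ⟨g', hg'⟩ := exists_metric (cometric_Wd hW x0)
    obtain ⟨a, ha1, ha2, ha⟩ := exists_cov (cometric_Wd hW x0) hg' (x0, p.2) (lf x0 p.2 w')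
    rw [dd_lf hW, Wd_apply] at ha
    have ha3 : (W ((x0 : EV (m + 1)), (p.2 : EV (n + 1))) (0, a.2)).2 = dS p.2 w' :=
      congrArg Prod.snd ha
    obtain ⟨v, hv1, hv2⟩ := exists_vec p (a := (W (zz p) (0, a.2)).1) (b := (W (zz p) (0, a.2)).2)
      (hW.tan1 (zz p) (norm_zz1 p) (norm_zz2 p) _) (hW.tan2 (zz p) (norm_zz1 p) (norm_zz2 p) _)
    have hv3 : dd p v = W (zz p) (0, a.2) := Prod.ext hv1 hv2
    refine ⟨v, ?_, ?_⟩
    · intro u hu
      rw [hD] at hu
      rw [hg p _ v hv3, pr_zero_left]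
      change ⟪a.2, d2 p u⟫ = 0
      rw [d2_dS, hu, map_zero, inner_zero_right]
    · rw [hD, ← hw']
      apply dS_inj p.2
      rw [← d2_dS, hv2, hblk, ha3]

end

end Pool.Agent.H839R2.Sub
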