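import Pool.Agent.H839R2.HO.Sub

/-!
The statement of MP_a61a4c_gt (fibre dimension of Riemannian submersions from positive curvature)
and its refutation from a positively curved metric on `S^m × S^n` given by a cometric with constant
second block.
-/

open Bundle Manifold ContDiff ContinuousLinearMap Filter VectorField Metric Module
open scoped Topology

set_option autoImplicit false
set_option linter.unusedSectionVars false

noncomputable section

namespace Pool.Agent.H839R2.Sub

open Pool.Agent.H821R2 Pool.Agent.H821R5 Pool.Agent.H821R5.SP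

local notation "⟪" x ", " y "⟫" => inner ℝ x y

/-- The assertion asked for in Q1: for every Riemannian submersion `f : (M, g) → (B, h)` with `M`,
`B` connected smooth manifolds without boundary, `M` compact, all sectional curvatures of `(M, g)`
positive and fibre dimension `k = dim M - dim B ≥ 1` one has `k < dim B`. -/
def FiberDimensionBound : Prop :=
  ∀ (E : Type) [NormedAddCommGroup E] [NormedSpace ℝ E] [FiniteDimensional ℝ E]
    (H : Type) [TopologicalSpace H] (I : ModelWithCorners ℝ E H)
    (M : Type) [TopologicalSpace M] [ChartedSpace H M] [IsManifold I ∞ M]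
    [BoundarylessManifold I M] [T2Space M] [SecondCountableTopology M] [CompactSpace M]
    [ConnectedSpace M]
    (E' : Type) [NormedAddCommGroup E'] [NormedSpace ℝ E'] [FiniteDimensional ℝ E']
    (H' : Type) [TopologicalSpace H'] (I' : ModelWithCorners ℝ E' H')
    (B : Type) [TopologicalSpace B] [ChartedSpace H' B] [IsManifold I' ∞ B]
    [BoundarylessManifold I' B] [T2Space B] [SecondCountableTopology B] [ConnectedSpace B]
    (g : ContMDiffRiemannianMetric I ∞ E (fun x : M => TangentSpace I x))
    (cov : CovariantDerivative I E (TangentSpace I : M → Type _)) (R : CurvField I M)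
    (h : ContMDiffRiemannianMetric I' ∞ E' (fun x : B => TangentSpace I' x)) (f : M → B),
    IsLeviCivita g cov → IsRiemannTensor cov R →
    (∀ (p : M) (u v : TangentSpace I p), OrthoPair g p u v → 0 < sec g R p u v) →
    IsRiemannianSubmersion g h f → 1 ≤ finrank ℝ E - finrank ℝ E' →
    finrank ℝ E - finrank ℝ E' < finrank ℝ E'

variable {m n : ℕ}

/-- There are a metric of positive sectional curvature on `S^m × S^n` and a metric on `S^n` for
which the projection `S^m × S^n → S^n` is a Riemannian submersion. -/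
def PositiveProjection (m n : ℕ) : Prop :=
  ∃ (g : ContMDiffRiemannianMetric (IM m n) ∞ (EM m n)
      (fun x : MM m n => TangentSpace (IM m n) x))
    (cov : CovariantDerivative (IM m n) (EM m n) (TangentSpace (IM m n) : MM m n → Type _))
    (R : CurvField (IM m n) (MM m n))
    (h : ContMDiffRiemannianMetric (𝓡 n) ∞ (EuclideanSpace ℝ (Fin n))
      (fun x : Sp n => TangentSpace (𝓡 n) x)),
    IsLeviCivita g cov ∧ IsRiemannTensor cov R ∧
    (∀ (p : MM m n) (u v : TangentSpace (IM m n) p), OrthoPair g p u v → 0 < sec g R p u v) ∧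
    IsRiemannianSubmersion g h (Prod.snd : MM m n → Sp n)

theorem positiveProjection_of_cometric [Nontrivial (EM m n)] {W : AA m n → AA m n →L[ℝ] AA m n}
    (hW : Cometric W) (hb : Block2 W)
    (hpos : ∀ z a b γ : AA m n, ‖z.1‖ = 1 → ‖z.2‖ = 1 → ⟪z.1, a.1⟫ = 0 → ⟪z.2, a.2⟫ = 0 →
      ⟪z.1, b.1⟫ = 0 → ⟪z.2, b.2⟫ = 0 → pr a a = 1 → pr b b = 1 → pr a b = 0 →
      ⟪z.1, γ.1⟫ = 0 → ⟪z.2, γ.2⟫ = 0 → W z γ = Br W a b z → 0 < Pexp W z a b γ) :
    PositiveProjection m n := by
  obtain ⟨g, cov, R, hg, hc, hR, hs⟩ := exists_positive hW hpos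
  obtain ⟨h, hh⟩ := exists_submersion hW hg hb
    ⟨bv 0, by rw [mem_sphere_zero_iff_norm, bv]; simp⟩
  exact ⟨g, cov, R, h, hc, hR, hs, hh⟩

theorem connectedSpace_Sp (hn : 1 ≤ n) : ConnectedSpace (Sp n) := by
  rw [← isConnected_iff_connectedSpace]
  refine isConnected_sphere ?_ 0 zero_le_one
  rw [← Module.finrank_eq_rank, finrank_euclideanSpace]
  simp only [Fintype.card_fin]
  exact_mod_cast Nat.lt_succ_of_le hn

/-- A positively curved `S^m × S^n` as above with `m ≥ n ≥ 1` refutes the bound. -/
theorem not_bound (hn : 1 ≤ n) (hmn : n ≤ m) (h : PositiveProjection m n) :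
    ¬ FiberDimensionBound := by
  intro hF
  obtain ⟨g, cov, R, h, hc, hR, hs, hh⟩ := h
  have i1 : ConnectedSpace (Sp n) := connectedSpace_Sp hn
  have i2 : ConnectedSpace (Sp m) := connectedSpace_Sp (hn.trans hmn)
  have := hF (EM m n) _ (IM m n) (MM m n) (EuclideanSpace ℝ (Fin n)) _ (𝓡 n) (Sp n) g cov R h
    Prod.snd hc hR hs hh
  simp only [finrank_prod, finrank_euclideanSpace, Fintype.card_fin] at this
  omega

end Pool.Agent.H839R2.Sub
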